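import Pool.Agent.Helper9_CG.Stmt
import Pool.Agent.Helper10_LAG.Uniq
import Pool.Agent.Helper76_LAG.Near

/-! CAND: the candidates (forced edges) of one round. -/

set_option autoImplicit false

namespace Pool.Agent.CG.H15

open SimpleGraph Pool.Agent.LAG Pool.Agent.LLG

section

variable {V : Type} {A R : SimpleGraph V}

/-- the level of a vertex is determined by the base point -/
theorem lvl (hA : Big A 400) {x y y' : V} {p : A.Walk x y} {p' : A.Walk x y'} (hp : p.IsPath)
    (hp' : p'.IsPath) {l l' : ℕ} (hl : l ≤ p.length) (hl' : l' ≤ p'.length) (h : l + l' ≤ 400)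
    (he : p.getVert l = p'.getVert l') : l = l' := by
  have key : ∀ {u u' : V} (q : A.Walk x u) (q' : A.Walk x u'), q.IsPath → q'.IsPath → u = u' →
      q.length + q'.length ≤ 400 → q.length = q'.length := by
    intro u u' q q' hq hq' e hh
    subst e
    rw [uniq V A 400 hA _ _ q q' hq hq' hh]
  have h1 : (p.take l).length = l := by rw [Walk.take_length]; omega
  have h2 : (p'.take l').length = l' := by rw [Walk.take_length]; omega
  have h3 := key (p.take l) (p'.take l') (hp.take l) (hp'.take l') he (by rw [h1, h2]; exact h)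
  rwa [h1, h2] at h3

/-- levels at different base points -/
theorem lvl2 {x y x' y' : V} {p : A.Walk x y} {p' : A.Walk x' y'} {l l' : ℕ}
    (hl : l ≤ 36) (hl' : l' ≤ 36) (he : p.getVert l = p'.getVert l') : near A 82 x x' := by
  have h1 : near A 36 x (p.getVert l) := ⟨p.take l, by rw [Walk.take_length]; omega⟩
  have h2 : near A 36 x' (p'.getVert l') := ⟨p'.take l', by rw [Walk.take_length]; omega⟩
  rw [← he] at h2
  exact near_mono (by norm_num) (near_trans h1 (near_symm h2))

/-- one of three consecutive edges of a path is in `R` -/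
theorem ex_edge [Finite V] (m3 : ∀ a, {b | (A \ R).Reachable a b}.ncard ≤ 3) {x y : V}
    {p : A.Walk x y} (hp : p.IsPath) (B : ℕ) (hB : B + 3 ≤ p.length) :
    ∃ l, B ≤ l ∧ l ≤ B + 2 ∧ R.Adj (p.getVert l) (p.getVert (l + 1)) := by
  by_contra hc
  push Not at hc
  have h1 : ∀ l, B ≤ l → l ≤ B + 2 → (A \ R).Adj (p.getVert l) (p.getVert (l + 1)) := by
    intro l hl hl'
    exact ⟨p.adj_getVert_succ (by omega), hc l hl hl'⟩
  have h2 : ∀ d, d ≤ 3 → (A \ R).Reachable (p.getVert B) (p.getVert (B + d)) := by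
    intro d
    induction d with
    | zero => intro _; exact Reachable.refl _
    | succ d ih =>
      intro hd
      exact (ih (by omega)).trans (h1 (B + d) (by omega) (by omega)).reachable
  have h3 : Set.InjOn (fun d : ℕ => p.getVert (B + d)) (Finset.range 4 : Set ℕ) := by
    intro a ha b hb hab
    rw [Finset.coe_range, Set.mem_Iio] at ha hb
    have h4 := hp.getVert_injOn (x₁ := B + a) (x₂ := B + b)
      (by simp only [Set.mem_setOf_eq]; omega) (by simp only [Set.mem_setOf_eq]; omega) hab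
    omega
  have h5 : (fun d : ℕ => p.getVert (B + d)) '' (Finset.range 4 : Set ℕ) ⊆
      {b | (A \ R).Reachable (p.getVert B) b} := by
    rintro _ ⟨d, hd, rfl⟩
    rw [Finset.coe_range, Set.mem_Iio] at hd
    exact h2 d (by omega)
  have h6 := Set.ncard_le_ncard h5 (Set.toFinite _)
  rw [h3.ncard_image, Set.ncard_coe_finset, Finset.card_range] at h6
  have := m3 (p.getVert B)
  omega

end

theorem cand : CandStmt := by
  classical
  intro V _ A R Q k g hg hS
  have hA : Big A 400 := hS.big.mono hg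
  -- the pairs
  set Ξ : Type := {ξ : V × Fin 4 // (∃ i, i < ξ.2 ∧ ξ.1 ∈ Q i) ∧
    ∃ y ∈ Q ξ.2, y ≠ ξ.1 ∧ near A 186 ξ.1 y} with hΞ
  have hy : ∀ ξ : Ξ, ∃ (y : V) (p : A.Walk ξ.1.1 y), y ∈ Q ξ.1.2 ∧ y ≠ ξ.1.1 ∧ p.IsPath ∧
      p.length ≤ 186 ∧ 83 ≤ p.length := by
    rintro ⟨⟨x, j⟩, ⟨i, hij, hx⟩, y, hyj, hyx, p, hp⟩
    refine ⟨y, p.bypass, hyj, hyx, p.bypass_isPath, p.length_bypass_le_length.trans hp, ?_⟩
    by_contra hlt
    exact hS.sep i j x hx y hyj (Ne.symm hyx) ⟨p.bypass, by omega⟩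
  choose y p hyQ hyne hpath hlen hlen' using hy
  -- the base level of a window
  set B : Ξ → Fin 3 → ℕ := fun ξ r => 12 * (ξ.1.2.val - 1) + 4 * r.val + 1 with hB
  have hBle : ∀ ξ r, B ξ r ≤ 33 := by
    intro ξ r
    have h1 := ξ.1.2.isLt
    have h2 := r.isLt
    simp only [hB]
    omega
  have hex : ∀ (ξ : Ξ) (r : Fin 3), ∃ l, B ξ r ≤ l ∧ l ≤ B ξ r + 2 ∧
      R.Adj ((p ξ).getVert l) ((p ξ).getVert (l + 1)) := by
    intro ξ r
    refine ex_edge hS.m3 (hpath ξ) (B ξ r) ?_
    have h1 := hBle ξ r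
    have h2 := hlen' ξ
    omega
  choose l hl1 hl2 hl3 using hex
  -- distinct windows give distinct vertices
  have hdis : ∀ (ξ : Ξ) (r : Fin 3) (ξ' : Ξ) (r' : Fin 3), (ξ, r) ≠ (ξ', r') →
      ∀ a b, B ξ r ≤ a → a ≤ B ξ r + 3 → B ξ' r' ≤ b → b ≤ B ξ' r' + 3 →
      (p ξ).getVert a ≠ (p ξ').getVert b := by
    intro ξ r ξ' r' hne a b ha1 ha2 hb1 hb2 he
    have h1 := hBle ξ r
    have h2 := hBle ξ' r'
    have h3 := hlen' ξ
    have h4 := hlen' ξ'
    by_cases hx : ξ.1.1 = ξ'.1.1
    · -- same base point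
      have key : ∀ (x x' : V) (hxx : x = x') (z z' : V) (q : A.Walk x z) (q' : A.Walk x' z'),
          q.IsPath → q'.IsPath → a ≤ q.length → b ≤ q'.length → q.getVert a = q'.getVert b →
          a = b := by
        intro x x' hxx
        subst hxx
        intro z z' q q' hq hq' hqa hqb hqe
        exact lvl hA hq hq' hqa hqb (by omega) hqe
      have h5 : a = b := key _ _ hx _ _ (p ξ) (p ξ') (hpath ξ) (hpath ξ') (by omega) (by omega) he
      subst h5
      have i1 : 1 ≤ ξ.1.2.val := by
        obtain ⟨⟨i, hi, _⟩, _⟩ := ξ.2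
        have : i.val < ξ.1.2.val := hi
        omega
      have i2 : 1 ≤ ξ'.1.2.val := by
        obtain ⟨⟨i, hi, _⟩, _⟩ := ξ'.2
        have : i.val < ξ'.1.2.val := hi
        omega
      have h6 := r.isLt
      have h7 := r'.isLt
      simp only [hB] at ha1 ha2 hb1 hb2
      have h8 : ξ.1.2.val = ξ'.1.2.val := by omega
      have h9 : r.val = r'.val := by omega
      refine hne (Prod.ext (Subtype.ext (Prod.ext hx (Fin.ext h8))) (Fin.ext h9))
    · obtain ⟨⟨i, _, hxi⟩, _⟩ := ξ.2
      obtain ⟨⟨i', _, hxi'⟩, _⟩ := ξ'.2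
      exact hS.sep i i' _ hxi _ hxi' hx (lvl2 (by omega) (by omega) he)
  refine ⟨Ξ, Fintype.ofFinite Ξ, fun ξ r => ((p ξ).getVert (l ξ r), (p ξ).getVert (l ξ r + 1)),
    fun ξ r => hl3 ξ r, ?_, ?_⟩
  · intro ξ r ξ' r' hne
    have a1 := hl1 ξ r
    have a2 := hl2 ξ r
    have b1 := hl1 ξ' r'
    have b2 := hl2 ξ' r'
    refine ⟨?_, ?_, ?_, ?_⟩
    · exact hdis ξ r ξ' r' hne _ _ (by omega) (by omega) (by omega) (by omega)
    · exact hdis ξ r ξ' r' hne _ _ (by omega) (by omega) (by omega) (by omega)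
    · exact hdis ξ r ξ' r' hne _ _ (by omega) (by omega) (by omega) (by omega)
    · exact hdis ξ r ξ' r' hne _ _ (by omega) (by omega) (by omega) (by omega)
  · intro P hP
    -- the case `i < j`
    have main : ∀ i j : Fin 4, i < j → ∀ x ∈ Q i, ∀ z ∈ Q j, x ≠ z → ¬ near (A \ P) 186 x z := by
      intro i j hij x hx z hz hxz hn
      have hn' : near A 186 x z := near_le sdiff_le hn
      set ξ : Ξ := ⟨(x, j), ⟨i, hij, hx⟩, z, hz, Ne.symm hxz, hn'⟩ with hξ
      have hj0 : j ≠ 0 := by
        intro e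
        rw [e] at hij
        exact absurd hij (Fin.not_lt_zero i)
      have hyz : y ξ = z := by
        by_contra hne
        refine hS.s1 j hj0 (y ξ) (hyQ ξ) z hz hne ?_
        have h1 : near A 186 x (y ξ) := ⟨p ξ, hlen ξ⟩
        exact near_mono (by norm_num) (near_trans (near_symm h1) hn')
      obtain ⟨w, hw⟩ := hn
      obtain ⟨r, hr⟩ := hP ξ
      have key : ∀ (z' : V) (q : A.Walk x z'), z' = z → q.IsPath → q.length ≤ 186 →
          ∀ a, a < q.length → (A \ P).Adj (q.getVert a) (q.getVert (a + 1)) := by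
        intro z' q hz' hq hq' a ha
        subst hz'
        have h1 : (w.bypass.mapLe (sdiff_le : A \ P ≤ A)).IsPath :=
          w.bypass_isPath.mapLe sdiff_le
        have h2 : (w.bypass.mapLe (sdiff_le : A \ P ≤ A)).length ≤ 186 := by
          rw [Walk.length_map]
          exact w.length_bypass_le_length.trans hw
        have h3 := uniq V A 400 hA _ _ q _ hq h1 (by omega)
        have h4 : ∀ b, q.getVert b = w.bypass.getVert b := by
          intro b
          rw [h3, Walk.getVert_map]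
          rfl
        rw [h4, h4]
        refine w.bypass.adj_getVert_succ ?_
        rw [h3, Walk.length_map] at ha
        exact ha
      have h5 := key (y ξ) (p ξ) hyz (hpath ξ) (hlen ξ) (l ξ r) (by
        have h1 := hBle ξ r
        have h2 := hl2 ξ r
        have h3 := hlen' ξ
        omega)
      exact h5.2 hr
    intro x hx z hz hxz hn
    obtain ⟨i, hxi⟩ := Set.mem_iUnion.mp hx
    obtain ⟨j, hzj⟩ := Set.mem_iUnion.mp hz
    rcases lt_trichotomy i j with h | h | h
    · exact main i j h x hxi z hzj hxz hn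
    · subst h
      have hn' : near A 186 x z := near_le sdiff_le hn
      by_cases hi : i = 0
      · subst hi
        exact hS.s0 x hxi z hzj hxz hn'
      · exact hS.s1 i hi x hxi z hzj hxz (near_mono (by norm_num) hn')
    · exact main j i h z hzj x hxi (Ne.symm hxz) (near_symm hn)

end Pool.Agent.CG.H15
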